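import Pool.Agent.H13.LN.Targets

/-!
# Vassiliev invariants: the extension to singular words
-/

set_option autoImplicit false

open Finset Pool.Agent.H59.LIN Pool.Agent.H13.LN

namespace Pool.Agent.H11.LNT

theorem run_app {n : ℕ} {α : Type} : ∀ (u v : List (Fin n × α)) (p : Fin (n + 1)),
    run (u ++ v) p = run v (run u p)
  | [], _, _ => rfl
  | x :: u, v, p => by
    change run (u ++ v) (tr x.1 p) = run v (run u (tr x.1 p))
    exact run_app u v _

theorem ext_sub' {B : Type} [AddCommGroup B] {n : ℕ} (F G : Wd n → B) : ∀ (w : SWd n) (u : Wd n),
    ext (fun r => F r - G r) u w = ext F u w - ext G u w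
  | [], _ => rfl
  | (i, some b) :: w, u => ext_sub' F G w _
  | (i, none) :: w, u => by
    change ext (fun r => F r - G r) (u ++ [(i, true)]) w -
      ext (fun r => F r - G r) (u ++ [(i, false)]) w =
      (ext F (u ++ [(i, true)]) w - ext F (u ++ [(i, false)]) w) -
      (ext G (u ++ [(i, true)]) w - ext G (u ++ [(i, false)]) w)
    rw [ext_sub' F G w, ext_sub' F G w]
    abel

theorem exa : T_EXA := by
  refine ⟨?_, ?_, ?_, ?_, ?_, ?_, ?_⟩
  · intro B _ n F u w w'
    induction w generalizing u with
    | nil => rfl
    | cons x w ih =>
      obtain ⟨i, b⟩ := x
      cases b with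
      | some b => exact ih _
      | none =>
        change ext F (u ++ [(i, true)]) (w ++ w') - ext F (u ++ [(i, false)]) (w ++ w') = _
        rw [ih, ih]
        rfl
  · intro B _ n F u z w
    induction w generalizing z with
    | nil => rfl
    | cons x w ih =>
      obtain ⟨i, b⟩ := x
      cases b with
      | some b =>
        change ext F (u ++ z ++ [(i, b)]) w = ext (fun r => F (u ++ r)) (z ++ [(i, b)]) w
        rw [List.append_assoc, ih]
      | none =>
        change ext F (u ++ z ++ [(i, true)]) w - ext F (u ++ z ++ [(i, false)]) w =
          ext (fun r => F (u ++ r)) (z ++ [(i, true)]) w -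
          ext (fun r => F (u ++ r)) (z ++ [(i, false)]) w
        rw [List.append_assoc, List.append_assoc, ih, ih]
  · intro B _ n F G u w h
    induction w generalizing u with
    | nil => exact h u fun p => rfl
    | cons x w ih =>
      obtain ⟨i, b⟩ := x
      have key : ∀ c : Bool, ext F (u ++ [(i, c)]) w = ext G (u ++ [(i, c)]) w := by
        intro c
        apply ih
        intro r hr
        apply h
        intro p
        rw [hr p, run_app]
        rfl
      cases b with
      | some b => exact key b
      | none =>
        change ext F (u ++ [(i, true)]) w - ext F (u ++ [(i, false)]) w =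
          ext G (u ++ [(i, true)]) w - ext G (u ++ [(i, false)]) w
        rw [key, key]
  · intro B _ n F u w
    induction w generalizing u with
    | nil => rfl
    | cons x w ih =>
      obtain ⟨i, b⟩ := x
      have key : ∀ c : Bool, ext F (up u ++ [(i.castSucc, c)])
          (w.map fun x => (x.1.castSucc, x.2)) = ext (fun r => F (up r)) (u ++ [(i, c)]) w := by
        intro c
        rw [← ih]
        congr 1
        unfold up
        rw [List.map_append]
        rfl
      cases b with
      | some b => exact key b
      | none =>
        change ext F (up u ++ [(i.castSucc, true)]) (w.map fun x => (x.1.castSucc, x.2)) -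
          ext F (up u ++ [(i.castSucc, false)]) (w.map fun x => (x.1.castSucc, x.2)) =
          ext (fun r => F (up r)) (u ++ [(i, true)]) w -
          ext (fun r => F (up r)) (u ++ [(i, false)]) w
        rw [key, key]
  · intro B _ n G u u' w w'
    induction w generalizing u with
    | nil => rfl
    | cons x w ih =>
      obtain ⟨i, b⟩ := x
      cases b with
      | some b => exact ih _
      | none =>
        change ext (fun r => ext (fun s => G r s) u' w') (u ++ [(i, true)]) w -
          ext (fun r => ext (fun s => G r s) u' w') (u ++ [(i, false)]) w =
          ext (fun s => ext (fun r => G r s) (u ++ [(i, true)]) w -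
            ext (fun r => G r s) (u ++ [(i, false)]) w) u' w'
        rw [ih, ih, ext_sub' (fun s => ext (fun r => G r s) (u ++ [(i, true)]) w)
          (fun s => ext (fun r => G r s) (u ++ [(i, false)]) w)]
  · intro B _ n F G u w
    exact ext_sub' F G w u
  · intro B C _ _ φ n F u w
    induction w generalizing u with
    | nil => rfl
    | cons x w ih =>
      obtain ⟨i, b⟩ := x
      cases b with
      | some b => exact ih _
      | none =>
        change ext (fun r => φ (F r)) (u ++ [(i, true)]) w -
          ext (fun r => φ (F r)) (u ++ [(i, false)]) w =
          φ (ext F (u ++ [(i, true)]) w - ext F (u ++ [(i, false)]) w)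
        rw [ih, ih, map_sub]

end Pool.Agent.H11.LNT
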