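import Pool.Agent.H13.LN.Targets

/-!
# Vassiliev invariants: the four term relation
-/

set_option autoImplicit false

open Finset Pool.Agent.H59.LIN Pool.Agent.H13.LN

namespace Pool.Agent.H11.LNT

theorem Gw_perm {d : ℕ} {l l' : List ℕ} (h : List.Perm l l') (hl : Gw d l) : Gw d l' := by
  refine ⟨h.length_eq.symm.trans hl.1, fun a ha => ?_⟩
  rw [← h.count_eq]
  exact hl.2 a (h.mem_iff.2 ha)

theorem Gw_card {d : ℕ} {l : List ℕ} (hl : Gw d l) : l.toFinset.card = d := by
  have h1 : ∑ c ∈ l.toFinset, l.count c = l.length := by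
    exact List.sum_toFinset_count_eq_length l
  have h2 : ∑ c ∈ l.toFinset, l.count c = ∑ c ∈ l.toFinset, 2 :=
    Finset.sum_congr rfl fun c hc => hl.2 c (List.mem_toFinset.1 hc)
  rw [h2, Finset.sum_const, smul_eq_mul, hl.1] at h1
  omega

theorem count_map_inj {l : List ℕ} {f : ℕ → ℕ} (hf : Set.InjOn f {a | a ∈ l}) {c : ℕ}
    (hc : c ∈ l) : (l.map f).count (f c) = l.count c := by
  rw [List.count_eq_countP, List.count_eq_countP, List.countP_map]
  apply List.countP_congr
  intro x hx
  simp only [Function.comp_apply, beq_iff_eq]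
  exact ⟨fun h => hf hx hc h, fun h => by rw [h]⟩

theorem cnt_of {d : ℕ} {l : List ℕ} {f : ℕ → ℕ} (hl : Gw d l) (hf : Set.InjOn f {a | a ∈ l})
    (hd : ∀ c ∈ l, f c < d) (k : ℕ) : (l.map f).count k = if k < d then 2 else 0 := by
  classical
  have himg : l.toFinset.image f = Finset.range d := by
    apply Finset.eq_of_subset_of_card_le
    · intro x hx
      rw [Finset.mem_image] at hx
      obtain ⟨c, hc, rfl⟩ := hx
      exact Finset.mem_range.2 (hd c (List.mem_toFinset.1 hc))
    · rw [Finset.card_range, Finset.card_image_of_injOn, Gw_card hl]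
      intro x hx y hy h
      exact hf (List.mem_toFinset.1 hx) (List.mem_toFinset.1 hy) h
  split_ifs with hk
  · have h1 : k ∈ l.toFinset.image f := by rw [himg]; exact Finset.mem_range.2 hk
    rw [Finset.mem_image] at h1
    obtain ⟨c, hc, rfl⟩ := h1
    have hc' := List.mem_toFinset.1 hc
    rw [count_map_inj hf hc', hl.2 c hc']
  · rw [List.count_eq_zero]
    intro h
    rw [List.mem_map] at h
    obtain ⟨c, hc, rfl⟩ := h
    exact hk (hd c hc)

/-- a list of blocks -/
theorem VL_of {d : ℕ} {l : List ℕ} {f : ℕ → ℕ} {L : List (List ℕ)} (hl : Gw d l)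
    (hf : Set.InjOn f {a | a ∈ l}) (hd : ∀ c ∈ l, f c < d) (hL : L.flatten = l.map f)
    (hne : L ≠ []) (hinc : ∀ b ∈ L, b.Pairwise (· < ·)) : VL d L :=
  ⟨hne, hinc, fun k => by rw [hL]; exact cnt_of hl hf hd k⟩

def sg (g : ℕ → ℕ) (l : List ℕ) : List (List ℕ) := l.map fun c => [g c]

theorem sg_flat (g : ℕ → ℕ) (l : List ℕ) : (sg g l).flatten = l.map g := by
  unfold sg
  induction l with
  | nil => rfl
  | cons a l ih => rw [List.map_cons, List.flatten_cons, ih]; rfl

theorem s2_sg (g : ℕ → ℕ) (l : List ℕ) : s2 (sg g l) = sg (fun c => g c + 2) l := by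
  unfold s2 sg
  rw [List.map_map]
  rfl

theorem sg_inc (g : ℕ → ℕ) (l : List ℕ) : ∀ b ∈ sg g l, b.Pairwise (· < ·) := by
  intro b hb
  unfold sg at hb
  rw [List.mem_map] at hb
  obtain ⟨c, _, rfl⟩ := hb
  exact List.pairwise_singleton _ _

theorem four_aux {B : Type} [AddCommGroup B] {d : ℕ} {H : List (List ℕ) → B} {S : List ℕ → B}
    (hH : HI d H)
    (hrel : ∀ (l : List ℕ) (f : ℕ → ℕ), Gw d l → Set.InjOn f {a | a ∈ l} → S (l.map f) = S l)
    (hfl : ∀ L : List (List ℕ), VL d L → H L = S L.flatten) (M₁ M₂ M₃ : List ℕ) (a b : ℕ)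
    (hG : Gw d (a :: b :: (M₁ ++ a :: (M₂ ++ b :: M₃)))) :
    S (a :: b :: (M₁ ++ a :: (M₂ ++ b :: M₃))) + S (a :: (M₁ ++ a :: b :: (M₂ ++ b :: M₃))) =
      S (a :: (M₁ ++ b :: a :: (M₂ ++ b :: M₃))) + S (b :: a :: (M₁ ++ a :: (M₂ ++ b :: M₃))) := by
  classical
  -- letters
  have hlen := hG.1
  have hca := hG.2 a (by simp)
  have hcb := hG.2 b (by simp)
  have hab : a ≠ b := by
    rintro rfl
    simp only [List.count_cons, List.count_append, beq_self_eq_true, if_true] at hca
    omega
  have hba : b ≠ a := hab.symm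
  have ha0 : a ∉ M₁ ++ (M₂ ++ M₃) := by
    intro h
    have h1 := List.count_pos_iff.2 h
    simp only [List.count_cons, List.count_append, beq_self_eq_true, if_true] at hca h1
    omega
  have hb0 : b ∉ M₁ ++ (M₂ ++ M₃) := by
    intro h
    have h1 := List.count_pos_iff.2 h
    simp only [List.count_cons, List.count_append, beq_self_eq_true, if_true] at hcb h1
    omega
  obtain ⟨e, he⟩ : ∃ e, d = e + 2 := by
    refine ⟨d - 2, ?_⟩
    simp only [List.length_cons, List.length_append] at hlen
    omega
  have hM : Gw e (M₁ ++ (M₂ ++ M₃)) := by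
    constructor
    · simp only [List.length_cons, List.length_append] at hlen ⊢
      omega
    · intro c hc
      have hca' : a ≠ c := by rintro rfl; exact ha0 hc
      have hcb' : b ≠ c := by rintro rfl; exact hb0 hc
      have h1 := hG.2 c (by
        simp only [List.mem_cons, List.mem_append] at hc ⊢
        tauto)
      simp only [List.count_cons, List.count_append, beq_iff_eq, hca', hcb', if_false] at h1 ⊢
      omega
  obtain ⟨M, hMdef⟩ : ∃ M, M = M₁ ++ (M₂ ++ M₃) := ⟨_, rfl⟩
  have m1 : ∀ c ∈ M₁, c ∈ M := fun c hc => by rw [hMdef]; simp [hc]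
  have m2 : ∀ c ∈ M₂, c ∈ M := fun c hc => by rw [hMdef]; simp [hc]
  have m3 : ∀ c ∈ M₃, c ∈ M := fun c hc => by rw [hMdef]; simp [hc]
  rw [← hMdef] at ha0 hb0 hM
  -- names
  let g : ℕ → ℕ := fun c => M.dedup.idxOf c
  have hgi : Set.InjOn g {c | c ∈ M} := by
    intro x hx y hy h
    have hx' : x ∈ M.dedup := List.mem_dedup.2 hx
    have hy' : y ∈ M.dedup := List.mem_dedup.2 hy
    exact (List.idxOf_inj hx').1 h
  have hge : ∀ c ∈ M, g c < e := by
    intro c hc
    have h1 : g c < M.dedup.length := List.idxOf_lt_length_iff.2 (List.mem_dedup.2 hc)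
    rw [← List.card_toFinset, Gw_card hM] at h1
    exact h1
  let f : ℕ → ℕ := fun c => if c = a then 0 else if c = b then 1 else g c + 2
  let f' : ℕ → ℕ := fun c => if c = a then 1 else if c = b then 0 else g c + 2
  have fa : f a = 0 := if_pos rfl
  have fb : f b = 1 := by change (if b = a then 0 else if b = b then 1 else g b + 2) = 1; simp [hba]
  have fa' : f' a = 1 := if_pos rfl
  have fb' : f' b = 0 := by change (if b = a then 1 else if b = b then 0 else g b + 2) = 0; simp [hba]
  have fM : ∀ c ∈ M, f c = g c + 2 := by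
    intro c hc
    have h1 : c ≠ a := by rintro rfl; exact ha0 hc
    have h2 : c ≠ b := by rintro rfl; exact hb0 hc
    change (if c = a then 0 else if c = b then 1 else g c + 2) = _
    rw [if_neg h1, if_neg h2]
  have fM' : ∀ c ∈ M, f' c = g c + 2 := by
    intro c hc
    have h1 : c ≠ a := by rintro rfl; exact ha0 hc
    have h2 : c ≠ b := by rintro rfl; exact hb0 hc
    change (if c = a then 1 else if c = b then 0 else g c + 2) = _
    rw [if_neg h1, if_neg h2]
  have mem : ∀ c, c ∈ a :: b :: (M₁ ++ a :: (M₂ ++ b :: M₃)) → c = a ∨ c = b ∨ c ∈ M := by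
    intro c hc
    rw [hMdef]
    simp only [List.mem_cons, List.mem_append] at hc ⊢
    tauto
  have fi : Set.InjOn f {c | c ∈ a :: b :: (M₁ ++ a :: (M₂ ++ b :: M₃))} := by
    intro x hx y hy h
    rcases mem x hx with rfl | rfl | hx' <;> rcases mem y hy with rfl | rfl | hy'
    · rfl
    · rw [fa, fb] at h; omega
    · rw [fa, fM _ hy'] at h; omega
    · rw [fa, fb] at h; omega
    · rfl
    · rw [fb, fM _ hy'] at h; omega
    · rw [fa, fM _ hx'] at h; omega
    · rw [fb, fM _ hx'] at h; omega
    · rw [fM _ hx', fM _ hy'] at h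
      exact hgi hx' hy' (by omega)
  have fi' : Set.InjOn f' {c | c ∈ a :: b :: (M₁ ++ a :: (M₂ ++ b :: M₃))} := by
    intro x hx y hy h
    rcases mem x hx with rfl | rfl | hx' <;> rcases mem y hy with rfl | rfl | hy'
    · rfl
    · rw [fa', fb'] at h; omega
    · rw [fa', fM' _ hy'] at h; omega
    · rw [fa', fb'] at h; omega
    · rfl
    · rw [fb', fM' _ hy'] at h; omega
    · rw [fa', fM' _ hx'] at h; omega
    · rw [fb', fM' _ hx'] at h; omega
    · rw [fM' _ hx', fM' _ hy'] at h
      exact hgi hx' hy' (by omega)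
  have fd : ∀ c ∈ a :: b :: (M₁ ++ a :: (M₂ ++ b :: M₃)), f c < d := by
    intro c hc
    rcases mem c hc with rfl | rfl | hc'
    · rw [fa]; omega
    · rw [fb]; omega
    · rw [fM _ hc']; have := hge c hc'; omega
  have fd' : ∀ c ∈ a :: b :: (M₁ ++ a :: (M₂ ++ b :: M₃)), f' c < d := by
    intro c hc
    rcases mem c hc with rfl | rfl | hc'
    · rw [fa']; omega
    · rw [fb']; omega
    · rw [fM' _ hc']; have := hge c hc'; omega
  have mf : ∀ l : List ℕ, (∀ c ∈ l, c ∈ M) → l.map f = l.map fun c => g c + 2 := fun l h =>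
    List.map_congr_left fun c hc => fM c (h c hc)
  have mf' : ∀ l : List ℕ, (∀ c ∈ l, c ∈ M) → l.map f' = l.map fun c => g c + 2 := fun l h =>
    List.map_congr_left fun c hc => fM' c (h c hc)
  -- evaluation of `H`
  have ev : ∀ (l : List ℕ) (L : List (List ℕ)) (φ : ℕ → ℕ),
      List.Perm (a :: b :: (M₁ ++ a :: (M₂ ++ b :: M₃))) l → (φ = f ∨ φ = f') → L ≠ [] →
      (∀ b ∈ L, b.Pairwise (· < ·)) → L.flatten = l.map φ → H L = S l := by
    intro l L φ hp hφ hne hinc hflat
    have hG' := Gw_perm hp hG
    have hset : {c | c ∈ l} = {c | c ∈ a :: b :: (M₁ ++ a :: (M₂ ++ b :: M₃))} := by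
      ext c
      exact hp.mem_iff.symm
    have hi : Set.InjOn φ {c | c ∈ l} := by
      rw [hset]
      rcases hφ with rfl | rfl
      · exact fi
      · exact fi'
    have hd' : ∀ c ∈ l, φ c < d := by
      intro c hc
      rcases hφ with rfl | rfl
      · exact fd c (hp.mem_iff.2 hc)
      · exact fd' c (hp.mem_iff.2 hc)
    rw [hfl L (VL_of hG' hi hd' hflat hne hinc), hflat, hrel l φ hG' hi]
  have key := hH.four e (sg g M₁) (sg g M₂) (sg g M₃) he (by
    refine VL_of hM hgi hge ?_ (by simp) ?_
    · simp only [List.flatten_cons, List.flatten_append, List.nil_append, sg_flat, hMdef,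
        List.map_append]
    · intro x hx
      simp only [List.mem_cons, List.mem_append] at hx
      rcases hx with rfl | hx | rfl | hx | rfl | hx
      · exact List.Pairwise.nil
      · exact sg_inc _ _ x hx
      · exact List.Pairwise.nil
      · exact sg_inc _ _ x hx
      · exact List.Pairwise.nil
      · exact sg_inc _ _ x hx)
  rw [s2_sg, s2_sg, s2_sg] at key
  have inc01 : ([0, 1] : List ℕ).Pairwise (· < ·) := by simp
  have inc0 : ([0] : List ℕ).Pairwise (· < ·) := List.pairwise_singleton _ _
  have inc1 : ([1] : List ℕ).Pairwise (· < ·) := List.pairwise_singleton _ _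
  rw [ev (a :: b :: (M₁ ++ a :: (M₂ ++ b :: M₃))) _ f (List.Perm.refl _) (Or.inl rfl) (by simp) (by
      intro x hx
      simp only [List.mem_cons, List.mem_append] at hx
      rcases hx with rfl | hx | rfl | hx | rfl | hx
      exacts [inc01, sg_inc _ _ x hx, inc0, sg_inc _ _ x hx, inc1, sg_inc _ _ x hx]) (by
      simp only [List.flatten_cons, List.flatten_append, sg_flat, List.map_cons, List.map_append,
        fa, fb, mf M₁ m1, mf M₂ m2, mf M₃ m3, List.cons_append, List.nil_append]),
    ev (a :: (M₁ ++ a :: b :: (M₂ ++ b :: M₃))) _ f (by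
      rw [List.perm_iff_count]; intro c
      simp only [List.count_cons, List.count_append]; omega) (Or.inl rfl) (by simp) (by
      intro x hx
      simp only [List.mem_cons, List.mem_append] at hx
      rcases hx with rfl | hx | rfl | hx | rfl | hx
      exacts [inc0, sg_inc _ _ x hx, inc01, sg_inc _ _ x hx, inc1, sg_inc _ _ x hx]) (by
      simp only [List.flatten_cons, List.flatten_append, sg_flat, List.map_cons, List.map_append,
        fa, fb, mf M₁ m1, mf M₂ m2, mf M₃ m3, List.cons_append, List.nil_append]),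
    ev (a :: (M₁ ++ b :: a :: (M₂ ++ b :: M₃))) _ f' (by
      rw [List.perm_iff_count]; intro c
      simp only [List.count_cons, List.count_append]; omega) (Or.inr rfl) (by simp) (by
      intro x hx
      simp only [List.mem_cons, List.mem_append] at hx
      rcases hx with rfl | hx | rfl | hx | rfl | hx
      exacts [inc1, sg_inc _ _ x hx, inc01, sg_inc _ _ x hx, inc0, sg_inc _ _ x hx]) (by
      simp only [List.flatten_cons, List.flatten_append, sg_flat, List.map_cons, List.map_append,
        fa', fb', mf' M₁ m1, mf' M₂ m2, mf' M₃ m3, List.cons_append, List.nil_append]),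
    ev (b :: a :: (M₁ ++ a :: (M₂ ++ b :: M₃))) _ f' (by
      rw [List.perm_iff_count]; intro c
      simp only [List.count_cons, List.count_append]; omega) (Or.inr rfl) (by simp) (by
      intro x hx
      simp only [List.mem_cons, List.mem_append] at hx
      rcases hx with rfl | hx | rfl | hx | rfl | hx
      exacts [inc01, sg_inc _ _ x hx, inc1, sg_inc _ _ x hx, inc0, sg_inc _ _ x hx]) (by
      simp only [List.flatten_cons, List.flatten_append, sg_flat, List.map_cons, List.map_append,
        fa', fb', mf' M₁ m1, mf' M₂ m2, mf' M₃ m3, List.cons_append, List.nil_append])] at key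
  exact key

theorem rot_aux {B : Type} {d : ℕ} {S : List ℕ → B}
    (hrot : ∀ (a : ℕ) (l : List ℕ), Gw d (a :: l) → S (l ++ [a]) = S (a :: l)) :
    ∀ (A X : List ℕ), Gw d (A ++ X) → S (A ++ X) = S (X ++ A)
  | [], X, _ => by rw [List.nil_append, List.append_nil]
  | a :: A, X, h => by
    have h1 : Gw d (A ++ (X ++ [a])) := by
      refine Gw_perm ?_ h
      rw [List.perm_iff_count]; intro c
      simp only [List.count_cons, List.count_append, List.count_nil]; omega
    have h2 := rot_aux hrot A (X ++ [a]) h1
    rw [List.cons_append, ← hrot a (A ++ X) h, List.append_assoc, h2, List.append_assoc]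
    rfl

theorem wsf : T_WSF := by
  intro B _ d H S hH hrel hrot hfl A B' C a b hG
  -- rotate `A` to the end
  have key : ∀ C' : List ℕ, Gw d (a :: b :: (B' ++ a :: C')) →
      S (a :: b :: (B' ++ a :: C')) + S (a :: (B' ++ a :: b :: C')) =
        S (b :: a :: (B' ++ a :: C')) + S (a :: (B' ++ b :: a :: C')) := by
    intro C' hG'
    have hcb := hG'.2 b (by simp)
    have hca := hG'.2 a (by simp)
    have hab : a ≠ b := by
      rintro rfl
      simp only [List.count_cons, List.count_append, beq_self_eq_true, if_true] at hca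
      omega
    have hmem : b ∈ B' ∨ b ∈ C' := by
      by_contra hcon
      push Not at hcon
      simp only [List.count_cons, List.count_append, beq_self_eq_true, if_true, beq_iff_eq, hab,
        if_false, List.count_eq_zero.2 hcon.1, List.count_eq_zero.2 hcon.2] at hcb
      omega
    rcases hmem with hmem | hmem
    · obtain ⟨B₁, B₂, rfl⟩ := List.append_of_mem hmem
      -- start at the second `a`
      have hG1 : Gw d (a :: b :: (C' ++ a :: (B₁ ++ b :: B₂))) := by
        refine Gw_perm ?_ hG'
        rw [List.perm_iff_count]; intro c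
        simp only [List.count_cons, List.count_append]; omega
      have k := four_aux hH hrel hfl C' B₁ B₂ a b hG1
      have r1 := rot_aux hrot (a :: b :: (B₁ ++ b :: B₂)) (a :: C') (by
        refine Gw_perm ?_ hG'
        rw [List.perm_iff_count]; intro c
        simp only [List.count_cons, List.count_append]; omega)
      have r2 := rot_aux hrot (b :: a :: (B₁ ++ b :: B₂)) (a :: C') (by
        refine Gw_perm ?_ hG'
        rw [List.perm_iff_count]; intro c
        simp only [List.count_cons, List.count_append]; omega)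
      have r3 := rot_aux hrot (a :: (B₁ ++ b :: B₂)) (a :: b :: C') (by
        refine Gw_perm ?_ hG'
        rw [List.perm_iff_count]; intro c
        simp only [List.count_cons, List.count_append]; omega)
      have r4 := rot_aux hrot (a :: (B₁ ++ b :: B₂)) (b :: a :: C') (by
        refine Gw_perm ?_ hG'
        rw [List.perm_iff_count]; intro c
        simp only [List.count_cons, List.count_append]; omega)
      simp only [List.cons_append, List.append_assoc] at r1 r2 r3 r4 k ⊢
      rw [r1, r2, r3, r4]
      rw [add_comm (S (a :: (C' ++ a :: b :: (B₁ ++ b :: B₂)))), k]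
    · obtain ⟨C₁, C₂, rfl⟩ := List.append_of_mem hmem
      have hG1 : Gw d (a :: b :: (B' ++ a :: (C₁ ++ b :: C₂))) := hG'
      have k := four_aux hH hrel hfl B' C₁ C₂ a b hG1
      rw [k, add_comm]
  have hGr : Gw d (a :: b :: (B' ++ a :: (C ++ A))) := by
    refine Gw_perm ?_ hG
    rw [List.perm_iff_count]; intro c
    simp only [List.count_cons, List.count_append]; omega
  have k := key (C ++ A) hGr
  have r1 := rot_aux hrot A (a :: b :: (B' ++ a :: C)) hG
  have r2 := rot_aux hrot A (b :: a :: (B' ++ a :: C)) (by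
    refine Gw_perm ?_ hG
    rw [List.perm_iff_count]; intro c
    simp only [List.count_cons, List.count_append]; omega)
  have r3 := rot_aux hrot A (a :: (B' ++ a :: b :: C)) (by
    refine Gw_perm ?_ hG
    rw [List.perm_iff_count]; intro c
    simp only [List.count_cons, List.count_append]; omega)
  have r4 := rot_aux hrot A (a :: (B' ++ b :: a :: C)) (by
    refine Gw_perm ?_ hG
    rw [List.perm_iff_count]; intro c
    simp only [List.count_cons, List.count_append]; omega)
  simp only [List.cons_append, List.append_assoc] at r1 r2 r3 r4 k ⊢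
  rw [r1, r2, r3, r4]
  have e : ∀ x y z w : B, x + z = y + w → x - y + z - w = 0 := by
    intro x y z w h
    have : x - y + z - w = (x + z) - (y + w) := by abel
    rw [this, h, sub_self]
  exact e _ _ _ _ k

end Pool.Agent.H11.LNT
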